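import Pool.Agent.Run7.h153.TL.Ring
import Pool.Agent.Run7.h153.NS.Reg
set_option autoImplicit false

/-!
The regulators of the classes of the triangles.
-/

namespace Pool.Agent.Run7.h153.TL

open Polynomial

open Pool.Agent.TH826.MK

open Pool.Agent.Run7.h153.NS

section gen

variable {A : Type*} [CommRing A] (Γ : Torus A 1)

theorem reg_swap (u w : Aˣ) : Γ.reg (s2 u w) = -Γ.reg (s2 w u) := by
  unfold s2
  rw [Torus.reg_symb, Torus.reg_symb]
  unfold Torus.pair pairing
  rw [← MeasureTheory.integral_neg]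
  congr 1
  funext y
  unfold integrand
  rw [Matrix.det_fin_two, Matrix.det_fin_two]
  simp only [Matrix.of_apply, Matrix.cons_val_zero, Matrix.cons_val_one]
  rw [← Complex.neg_re]
  congr 1
  ring

theorem reg_self (u : Aˣ) : Γ.reg (s2 u u) = 0 := by
  have h := reg_swap Γ u u
  linarith

theorem s2_neg_one_left (w : Aˣ) : s2 (-1 : Aˣ) w = 0 := by
  have h := s2_mul_left (-1 : Aˣ) (-1) w
  rw [neg_mul_neg, one_mul, s2_one_left, ← two_smul ℚ] at h
  exact (smul_eq_zero.1 h.symm).resolve_left two_ne_zero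

theorem s2_neg_left' (u w : Aˣ) : s2 (-u) w = s2 u w := by
  rw [← neg_one_mul, s2_mul_left, s2_neg_one_left, zero_add]

/-- the regulator of a symbol with entries of the form `x y / κ` -/
theorem reg_edge (X X' Y Y' κ : Aˣ) (hX : (X' : A) - X = κ) (hY : (Y' : A) - Y = κ) :
    Γ.reg (s2 (X * Y / κ) (X' * Y' / κ)) = Γ.reg (s2 X Y') - Γ.reg (s2 X' Y) := by
  have st : ∀ Z Z' : Aˣ, (Z' : A) - Z = κ → s2 (Z / κ) (Z' / κ) = 0 := by
    intro Z Z' h
    rw [← s2_neg_left']
    refine symb_eq_zero _ ⟨0, 1, by decide, ?_⟩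
    show ((-(Z / κ) : Aˣ) : A) + ((Z' / κ : Aˣ) : A) = 1
    rw [Units.val_neg, div_eq_mul_inv, div_eq_mul_inv, Units.val_mul, Units.val_mul,
      neg_add_eq_sub, ← sub_mul, h, Units.mul_inv]
  have h1 := congrArg Γ.reg (st X X' hX)
  have h2 := congrArg Γ.reg (st Y Y' hY)
  simp only [s2_div_left, s2_div_right, map_sub, map_zero] at h1 h2
  simp only [s2_div_left, s2_div_right, s2_mul_left, s2_mul_right, map_sub, map_add]
  have h3 := reg_self Γ κ
  have h4 := reg_swap Γ Y X'
  linarith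

end gen

section cover

variable {K : Type*} [Field K] {r : ℕ} (lam : K) (a : Fin (r + 1) → K)

/-- the unit `x - a_i` -/
noncomputable abbrev xu (i : Fin (r + 1)) : (CR lam a)ˣ :=
  Pool.Agent.TH826.MH.ux (r := fun _ : Fin 2 => r) lam (fun _ => a) 0 i

/-- the unit `y - a_i` -/
noncomputable abbrev yu (i : Fin (r + 1)) : (CR lam a)ˣ :=
  Pool.Agent.TH826.MH.ux (r := fun _ : Fin 2 => r) lam (fun _ => a) 1 i

theorem cov_line (i : Fin (r + 1)) :
    Units.map (cov lam a : DRing lam a →* CR lam a) (line lam a i) = xu lam a i * yu lam a i := by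
  apply Units.ext
  show cov lam a (toD lam a (lf a i)) = _
  rw [cov_toD, subst_lf, map_mul]
  rfl

theorem cov_cst {c : K} (h : c ≠ 0) :
    (Units.map (cov lam a : DRing lam a →* CR lam a) (cst lam a c) : CR lam a) =
      Pool.Agent.TH826.MH.fpol (r := fun _ : Fin 2 => r) lam (fun _ => a) (MvPolynomial.C c) := by
  show cov lam a (cst lam a c : DRing lam a) = _
  rw [coe_cst lam a h, cov_toD, subst_C]

theorem sub_ux (k : Fin 2) (i j : Fin (r + 1)) :
    (Pool.Agent.TH826.MH.ux (r := fun _ : Fin 2 => r) lam (fun _ => a) k j : CR lam a) -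
      Pool.Agent.TH826.MH.ux (r := fun _ : Fin 2 => r) lam (fun _ => a) k i =
      Pool.Agent.TH826.MH.fpol (r := fun _ : Fin 2 => r) lam (fun _ => a)
        (MvPolynomial.C (a i - a j)) := by
  rw [Pool.Agent.TH826.MH.coe_ux, Pool.Agent.TH826.MH.coe_ux]
  unfold Pool.Agent.TH826.MH.fx
  rw [← map_sub, MvPolynomial.C_sub]
  congr 1
  ring

theorem reg_pull_edge (Γ : Torus (CR lam a) 1) (ha : Function.Injective a) {i j : Fin (r + 1)}
    (hij : i ≠ j) : (pullT (cov lam a) Γ).reg (edge lam a i j) =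
      Γ.reg (s2 (xu lam a i) (yu lam a j)) - Γ.reg (s2 (xu lam a j) (yu lam a i)) := by
  have h0 : a i - a j ≠ 0 := sub_ne_zero.2 fun e => hij (ha e)
  have e : edge lam a i j = s2 (line lam a i / cst lam a (a i - a j))
    (line lam a j / cst lam a (a i - a j)) := rfl
  rw [e, reg_pull, _root_.map_div, _root_.map_div, cov_line, cov_line]
  refine reg_edge Γ _ _ _ _ _ ?_ ?_
  · rw [cov_cst lam a h0]
    exact sub_ux lam a 0 i j
  · rw [cov_cst lam a h0]
    exact sub_ux lam a 1 i j

variable {lam} {a} in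
/-- Loops such that no combination of the symbols with vanishing row and column sums has vanishing
regulators. -/
theorem exists_loops (σ : K →+* ℂ) (hl0 : lam ≠ 0) (ha : Function.Injective a)
    (hcrit : ∀ ξ η : ℂ, (derivative (∏ i, (X - C (σ (a i))))).eval ξ = 0 →
      (derivative (∏ i, (X - C (σ (a i))))).eval η = 0 →
      1 < ‖σ lam * (∏ i, (ξ - σ (a i))) * ∏ i, (η - σ (a i))‖) :
    ∃ Γ : (Fin 2 → Fin r) → Torus (CR lam a) 1,
      (∀ t θ (x : K), (Γ t).e θ (Pool.Agent.TH826.MH.fpol (r := fun _ : Fin 2 => r) lam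
        (fun _ => a) (MvPolynomial.C x)) = σ x) ∧
      ∀ m : Fin (r + 1) → Fin (r + 1) → ℝ, (∀ j, ∑ i, m i j = 0) → (∀ i, ∑ j, m i j = 0) →
        (∀ t, ∑ i, ∑ j, m i j * (Γ t).reg (s2 (xu lam a i) (yu lam a j)) = 0) →
        ∀ i j, m i j = 0 := by
  obtain ⟨Γ, h1, h2⟩ := Pool.Agent.N686.DI.exists_tori (σ := σ) (r := fun _ : Fin 2 => r)
    (a := fun _ => a) hl0 (fun _ => ha) hcrit
  refine ⟨Γ, h1, fun m hm1 hm2 hm => ?_⟩
  obtain ⟨V, hV⟩ := abel2 m hm1 hm2
  -- the symbols of the library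
  have e2 : ∀ t (i : Fin 2 → Fin r), (Γ t).reg (symb (Pool.Agent.TH826.MH.ent
      (r := fun _ : Fin 2 => r) lam (fun _ => a) i)) =
      (Γ t).reg (s2 (xu lam a (i 0).castSucc) (yu lam a (i 1).castSucc)) -
      (Γ t).reg (s2 (xu lam a (i 0).castSucc) (yu lam a (i 1).succ)) -
      (Γ t).reg (s2 (xu lam a (i 0).succ) (yu lam a (i 1).castSucc)) +
      (Γ t).reg (s2 (xu lam a (i 0).succ) (yu lam a (i 1).succ)) := by
    intro t i
    have e3 : symb (Pool.Agent.TH826.MH.ent (r := fun _ : Fin 2 => r) lam (fun _ => a) i) =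
        s2 (xu lam a (i 0).castSucc / xu lam a (i 0).succ)
          (yu lam a (i 1).castSucc / yu lam a (i 1).succ) := by
      unfold s2
      congr 1
      funext k
      fin_cases k <;> rfl
    rw [e3, s2_div_left, s2_div_right, s2_div_right, map_sub, map_sub, map_sub]
    ring
  have hV0 : (fun i : Fin 2 → Fin r => V (i 0) (i 1)) = 0 := by
    by_contra hne
    refine h2 (Matrix.exists_mulVec_eq_zero_iff.1 ⟨_, hne, ?_⟩)
    funext t
    have h3 := hm t
    rw [hV] at h3
    rw [Matrix.mulVec, dotProduct, Pi.zero_apply, ← h3,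
      ← Equiv.sum_comp (piFinTwoEquiv fun _ => Fin r).symm, Fintype.sum_prod_type]
    refine Finset.sum_congr rfl fun p _ => Finset.sum_congr rfl fun q _ => ?_
    rw [Matrix.of_apply, e2, mul_comm]
    rfl
  intro i j
  classical
  have h3 := hV fun i' j' => if i' = i ∧ j' = j then 1 else 0
  have h4 : ∀ p q, V p q = 0 := by
    intro p q
    exact congrFun hV0 ((piFinTwoEquiv fun _ => Fin r).symm (p, q))
  simp only [h4, zero_mul, Finset.sum_const_zero] at h3
  rw [Finset.sum_eq_single i, Finset.sum_eq_single j] at h3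
  · simpa using h3
  · intro j' _ hj'
    rw [if_neg fun e => hj' e.2, mul_zero]
  · intro hh
    exact absurd (Finset.mem_univ _) hh
  · intro i' _ hi'
    refine Finset.sum_eq_zero fun j' _ => ?_
    rw [if_neg fun e => hi' e.1, mul_zero]
  · intro hh
    exact absurd (Finset.mem_univ _) hh

end cover

section lin

variable {r : ℕ}

/-- the matrix of an edge -/
def em (i j k l : Fin (r + 1)) : ℝ :=
  (if k = i ∧ l = j then 1 else 0) - if k = j ∧ l = i then 1 else 0

theorem sum_em (i j : Fin (r + 1)) (ρ : Fin (r + 1) → Fin (r + 1) → ℝ) :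
    ∑ k, ∑ l, em i j k l * ρ k l = ρ i j - ρ j i := by
  unfold em
  simp only [sub_mul, Finset.sum_sub_distrib, ite_mul, one_mul, zero_mul]
  congr 1
  · rw [Finset.sum_eq_single i, Finset.sum_eq_single j]
    · simp
    · intro l _ hl
      rw [if_neg fun e => hl e.2]
    · intro h
      exact absurd (Finset.mem_univ _) h
    · intro k _ hk
      exact Finset.sum_eq_zero fun l _ => if_neg fun e => hk e.1
    · intro h
      exact absurd (Finset.mem_univ _) h
  · rw [Finset.sum_eq_single j, Finset.sum_eq_single i]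
    · simp
    · intro l _ hl
      rw [if_neg fun e => hl e.2]
    · intro h
      exact absurd (Finset.mem_univ _) h
    · intro k _ hk
      exact Finset.sum_eq_zero fun l _ => if_neg fun e => hk e.1
    · intro h
      exact absurd (Finset.mem_univ _) h

theorem sum_em_row (i j k : Fin (r + 1)) :
    ∑ l, em i j k l = (if k = i then 1 else 0) - if k = j then 1 else 0 := by
  unfold em
  rw [Finset.sum_sub_distrib]
  congr 1
  · by_cases h : k = i
    · simp [h]
    · simp [h]
  · by_cases h : k = j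
    · simp [h]
    · simp [h]

theorem em_symm (i j k l : Fin (r + 1)) : em i j l k = -em i j k l := by
  unfold em
  by_cases h1 : k = i ∧ l = j <;> by_cases h2 : k = j ∧ l = i
  · have h3 : l = i ∧ k = j := ⟨h2.2, h2.1⟩
    have h4 : l = j ∧ k = i := ⟨h1.2, h1.1⟩
    rw [if_pos h1, if_pos h2, if_pos h3, if_pos h4]
    ring
  · have h3 : ¬ (l = i ∧ k = j) := fun e => h2 ⟨e.2, e.1⟩
    have h4 : l = j ∧ k = i := ⟨h1.2, h1.1⟩
    rw [if_pos h1, if_neg h2, if_neg h3, if_pos h4]
    ring
  · have h3 : l = i ∧ k = j := ⟨h2.2, h2.1⟩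
    have h4 : ¬ (l = j ∧ k = i) := fun e => h1 ⟨e.2, e.1⟩
    rw [if_neg h1, if_pos h2, if_pos h3, if_neg h4]
    ring
  · have h3 : ¬ (l = i ∧ k = j) := fun e => h2 ⟨e.2, e.1⟩
    have h4 : ¬ (l = j ∧ k = i) := fun e => h1 ⟨e.2, e.1⟩
    rw [if_neg h1, if_neg h2, if_neg h3, if_neg h4]
    ring

/-- the matrix of a triangle -/
def tm (i j k l : Fin (r + 1)) : ℝ := em 0 i k l + em i j k l + em j 0 k l

theorem tm_row (i j k : Fin (r + 1)) : ∑ l, tm i j k l = 0 := by
  unfold tm
  rw [Finset.sum_add_distrib, Finset.sum_add_distrib, sum_em_row, sum_em_row, sum_em_row]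
  ring

theorem tm_symm (i j k l : Fin (r + 1)) : tm i j l k = -tm i j k l := by
  unfold tm
  rw [em_symm 0 i, em_symm i j, em_symm j 0]
  ring

theorem tm_succ (p q p' q' : Fin r) (h : p < q) (h' : p' < q') :
    tm p.succ q.succ p'.succ q'.succ = if p = p' ∧ q = q' then 1 else 0 := by
  unfold tm em
  have n1 : ∀ x : Fin r, ¬ (x.succ = 0) := fun x => Fin.succ_ne_zero x
  by_cases h1 : p = p' ∧ q = q'
  · obtain ⟨rfl, rfl⟩ := h1
    have h2 : ¬ (p.succ = q.succ) := fun e => h.ne (Fin.succ_injective _ e)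
    simp [n1, h2]
  · have h2 : ¬ (p'.succ = p.succ ∧ q'.succ = q.succ) := fun e =>
      h1 ⟨(Fin.succ_injective _ e.1).symm, (Fin.succ_injective _ e.2).symm⟩
    have h3 : ¬ (p'.succ = q.succ ∧ q'.succ = p.succ) := by
      rintro ⟨e1, e2⟩
      have k1 := Fin.succ_injective _ e1
      have k2 := Fin.succ_injective _ e2
      subst k1 k2
      exact absurd h (not_lt.2 h'.le)
    rw [if_neg h1, if_neg h2, if_neg h3]
    simp [n1]

end lin

section main

variable {K : Type*} [Field K] {r : ℕ} {lam : K} {a : Fin (r + 1) → K}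

/-- **The regulators of the classes of the triangles are linearly independent.** -/
theorem independent (σ : K →+* ℂ) (hl0 : lam ≠ 0) (ha : Function.Injective a)
    (hcrit : ∀ ξ η : ℂ, (derivative (∏ i, (X - C (σ (a i))))).eval ξ = 0 →
      (derivative (∏ i, (X - C (σ (a i))))).eval η = 0 →
      1 < ‖σ lam * (∏ i, (ξ - σ (a i))) * ∏ i, (η - σ (a i))‖) :
    ∃ (N : ℕ) (Γ : Fin N → Torus (DRing lam a) 1),
      (∀ t θ (x : K), (Γ t).e θ (toD lam a (MvPolynomial.C x)) = σ x) ∧
      LinearIndependent ℝ (fun (s : {s : Fin r × Fin r // s.1 < s.2}) (t : Fin N) =>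
        (Γ t).reg (tri lam a 0 s.1.1.succ s.1.2.succ)) := by
  classical
  obtain ⟨Γ, h1, h2⟩ := exists_loops σ hl0 ha hcrit
  set e := Fintype.equivFin (Fin 2 → Fin r) with he
  refine ⟨_, fun t => pullT (cov lam a) (Γ (e.symm t)), fun t θ x => ?_, ?_⟩
  · show (Γ (e.symm t)).e θ (cov lam a (toD lam a (MvPolynomial.C x))) = σ x
    rw [cov_toD, subst_C, h1]
  · rw [Fintype.linearIndependent_iff]
    intro c hc
    have h3 := h2 (fun k l => ∑ s : {s : Fin r × Fin r // s.1 < s.2},
      c s * tm s.1.1.succ s.1.2.succ k l) (fun j => ?_) (fun i => ?_) (fun t => ?_)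
    · intro s
      have h4 := h3 s.1.1.succ s.1.2.succ
      rw [Finset.sum_eq_single s] at h4
      · rw [tm_succ _ _ _ _ s.2 s.2, if_pos ⟨rfl, rfl⟩, mul_one] at h4
        exact h4
      · intro s' _ hs'
        rw [tm_succ _ _ _ _ s'.2 s.2, if_neg, mul_zero]
        intro e
        exact hs' (Subtype.ext (Prod.ext e.1 e.2))
      · intro h
        exact absurd (Finset.mem_univ _) h
    · rw [Finset.sum_comm]
      refine Finset.sum_eq_zero fun s _ => ?_
      rw [← Finset.mul_sum]
      have h4 : ∑ i, tm s.1.1.succ s.1.2.succ i j = 0 := by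
        have h5 : ∀ i, tm s.1.1.succ s.1.2.succ i j = -tm s.1.1.succ s.1.2.succ j i :=
          fun i => tm_symm _ _ _ _
        simp only [h5, Finset.sum_neg_distrib, tm_row, neg_zero]
      rw [h4, mul_zero]
    · rw [Finset.sum_comm]
      refine Finset.sum_eq_zero fun s _ => ?_
      rw [← Finset.mul_sum, tm_row, mul_zero]
    · have h4 := congrFun hc (e t)
      rw [Finset.sum_apply, Pi.zero_apply] at h4
      simp only [Pi.smul_apply, smul_eq_mul, Equiv.symm_apply_apply] at h4
      rw [← h4]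
      simp only [Finset.sum_mul]
      have e1 : ∀ i : Fin (r + 1), ∑ j, ∑ s : {s : Fin r × Fin r // s.1 < s.2},
          c s * tm s.1.1.succ s.1.2.succ i j * (Γ t).reg (s2 (xu lam a i) (yu lam a j)) =
          ∑ s : {s : Fin r × Fin r // s.1 < s.2}, ∑ j,
          c s * tm s.1.1.succ s.1.2.succ i j * (Γ t).reg (s2 (xu lam a i) (yu lam a j)) :=
        fun i => Finset.sum_comm
      simp only [e1]
      rw [Finset.sum_comm]
      refine Finset.sum_congr rfl fun s _ => ?_
      have e2 : ∑ i, ∑ j, c s * tm s.1.1.succ s.1.2.succ i j *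
          (Γ t).reg (s2 (xu lam a i) (yu lam a j)) = c s * ∑ i, ∑ j, tm s.1.1.succ s.1.2.succ i j *
          (Γ t).reg (s2 (xu lam a i) (yu lam a j)) := by
        simp only [Finset.mul_sum, mul_assoc]
      rw [e2]
      congr 1
      unfold tm tri
      simp only [add_mul, Finset.sum_add_distrib]
      rw [sum_em, sum_em, sum_em, map_add, map_add,
        reg_pull_edge lam a (Γ t) ha (Fin.succ_ne_zero _).symm,
        reg_pull_edge lam a (Γ t) ha (fun h => s.2.ne (Fin.succ_injective _ h)),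
        reg_pull_edge lam a (Γ t) ha (Fin.succ_ne_zero _)]

end main

end Pool.Agent.Run7.h153.TL
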