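import Mathlib
set_option autoImplicit false

/-!
The projective plane curve `λ ∏_i (v - a_i u + a_i² w) = w ^ n` is smooth.
-/

namespace Pool.Agent.Run7.h153.TL

open Polynomial

section deriv

variable {R A : Type*} [CommRing R] [CommRing A] [Algebra R A]

theorem derivation_prod {ι : Type*} [DecidableEq ι] (D : Derivation R A A) (s : Finset ι)
    (f : ι → A) : D (∏ i ∈ s, f i) = ∑ i ∈ s, (∏ j ∈ s.erase i, f j) * D (f i) := by
  induction s using Finset.induction_on with
  | empty => simp
  | insert k s hk ih =>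
    rw [Finset.prod_insert hk, Derivation.leibniz, ih, Finset.sum_insert hk,
      Finset.erase_insert hk, smul_eq_mul, smul_eq_mul, Finset.mul_sum, add_comm]
    congr 1
    refine Finset.sum_congr rfl fun i hi => ?_
    have hne : k ≠ i := fun e => hk (e ▸ hi)
    rw [Finset.erase_insert_of_ne hne, Finset.prod_insert (fun h => hk (Finset.mem_of_mem_erase h))]
    ring

end deriv

section

variable {K : Type*} [Field K] {n : ℕ}

/-- The form `v - a_i u + a_i² w` in the variables `u = X 0`, `v = X 1` and `w = X 2`. -/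
noncomputable def hf (a : Fin n → K) (i : Fin n) : MvPolynomial (Fin 3) K :=
  MvPolynomial.X 1 - MvPolynomial.C (a i) * MvPolynomial.X 0 +
    MvPolynomial.C (a i ^ 2) * MvPolynomial.X 2

/-- The form `λ ∏_i (v - a_i u + a_i² w) - w ^ n` of degree `n`. -/
noncomputable def heqn (lam : K) (a : Fin n → K) : MvPolynomial (Fin 3) K :=
  MvPolynomial.C lam * ∏ i, hf a i - MvPolynomial.X 2 ^ n

theorem pderiv_heqn (lam : K) (a : Fin n → K) (k : Fin 3) (hk : k ≠ 2) :
    MvPolynomial.pderiv k (heqn lam a) = MvPolynomial.C lam *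
      ∑ i, (∏ j ∈ Finset.univ.erase i, hf a j) * MvPolynomial.pderiv k (hf a i) := by
  unfold heqn
  rw [map_sub, Derivation.leibniz, derivation_prod, MvPolynomial.pderiv_C, smul_zero, add_zero,
    smul_eq_mul, Derivation.leibniz_pow, MvPolynomial.pderiv_X_of_ne hk.symm, smul_zero, smul_zero,
    sub_zero]

theorem pderiv_hf0 (a : Fin n → K) (i : Fin n) :
    MvPolynomial.pderiv 0 (hf a i) = -MvPolynomial.C (a i) := by
  unfold hf
  rw [map_add, map_sub, Derivation.leibniz, Derivation.leibniz, MvPolynomial.pderiv_C,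
    MvPolynomial.pderiv_C, MvPolynomial.pderiv_X_self,
    MvPolynomial.pderiv_X_of_ne (show (1 : Fin 3) ≠ 0 by decide),
    MvPolynomial.pderiv_X_of_ne (show (2 : Fin 3) ≠ 0 by decide)]
  simp

theorem pderiv_hf1 (a : Fin n → K) (i : Fin n) :
    MvPolynomial.pderiv 1 (hf a i) = 1 := by
  unfold hf
  rw [map_add, map_sub, Derivation.leibniz, Derivation.leibniz, MvPolynomial.pderiv_C,
    MvPolynomial.pderiv_C, MvPolynomial.pderiv_X_self,
    MvPolynomial.pderiv_X_of_ne (show (0 : Fin 3) ≠ 1 by decide),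
    MvPolynomial.pderiv_X_of_ne (show (2 : Fin 3) ≠ 1 by decide)]
  simp

/-- **Smoothness of the projective curve**, if the critical values of `λ P(x) P(y)` have absolute
value larger than `1`. -/
theorem smooth (σ : K →+* ℂ) {lam : K} (hl0 : lam ≠ 0) {r : ℕ} {a : Fin (r + 1) → K}
    (ha : Function.Injective a)
    (hcrit : ∀ ξ η : ℂ, (derivative (∏ i, (X - C (σ (a i))))).eval ξ = 0 →
      (derivative (∏ i, (X - C (σ (a i))))).eval η = 0 →
      1 < ‖σ lam * (∏ i, (ξ - σ (a i))) * ∏ i, (η - σ (a i))‖) (z : Fin 3 → ℂ) (hz : z ≠ 0)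
    (h : MvPolynomial.eval₂ σ z (heqn lam a) = 0) :
    ∃ k, MvPolynomial.eval₂ σ z (MvPolynomial.pderiv k (heqn lam a)) ≠ 0 := by
  classical
  by_contra hcon
  push Not at hcon
  have hl0' : σ lam ≠ 0 := (map_ne_zero σ).2 hl0
  set L : Fin (r + 1) → ℂ := fun i => z 1 - σ (a i) * z 0 + σ (a i) ^ 2 * z 2 with hL
  have eL : ∀ i, MvPolynomial.eval₂Hom σ z (hf a i) = L i := by
    intro i
    unfold hf
    simp [hL]
  have h0 : σ lam * ∏ i, L i = z 2 ^ (r + 1) := by
    have h1 : MvPolynomial.eval₂Hom σ z (heqn lam a) = 0 := h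
    unfold heqn at h1
    rw [map_sub, map_mul, map_prod, map_pow, MvPolynomial.eval₂Hom_C, MvPolynomial.eval₂Hom_X',
      sub_eq_zero] at h1
    simpa only [eL] using h1
  have d0 : ∑ i, (∏ j ∈ Finset.univ.erase i, L j) * σ (a i) = 0 := by
    have h1 : MvPolynomial.eval₂Hom σ z (MvPolynomial.pderiv 0 (heqn lam a)) = 0 := hcon 0
    rw [pderiv_heqn lam a 0 (by decide), map_mul, map_sum, MvPolynomial.eval₂Hom_C] at h1
    have h2 := (mul_eq_zero.1 h1).resolve_left hl0'
    simp only [pderiv_hf0, map_mul, map_prod, eL, map_neg, MvPolynomial.eval₂Hom_C, mul_neg,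
      Finset.sum_neg_distrib, neg_eq_zero] at h2
    exact h2
  have d1 : ∑ i, (∏ j ∈ Finset.univ.erase i, L j) = 0 := by
    have h1 : MvPolynomial.eval₂Hom σ z (MvPolynomial.pderiv 1 (heqn lam a)) = 0 := hcon 1
    rw [pderiv_heqn lam a 1 (by decide), map_mul, map_sum, MvPolynomial.eval₂Hom_C] at h1
    have h2 := (mul_eq_zero.1 h1).resolve_left hl0'
    simp only [pderiv_hf1, map_mul, map_prod, eL, map_one, mul_one] at h2
    exact h2
  by_cases hw : z 2 = 0
  · -- a point at infinity
    rw [hw, zero_pow (Nat.succ_ne_zero r)] at h0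
    obtain ⟨i, -, hi⟩ := Finset.prod_eq_zero_iff.1 ((mul_eq_zero.1 h0).resolve_left hl0')
    rw [Finset.sum_eq_single i] at d1
    · obtain ⟨j, hj, hj0⟩ := Finset.prod_eq_zero_iff.1 d1
      simp only [hL, hw, mul_zero, add_zero] at hi hj0
      have h3 : (σ (a i) - σ (a j)) * z 0 = 0 := by linear_combination hj0 - hi
      have h4 : σ (a i) - σ (a j) ≠ 0 := sub_ne_zero.2 fun e =>
        (Finset.ne_of_mem_erase hj) (ha (σ.injective e)).symm
      have h5 : z 0 = 0 := (mul_eq_zero.1 h3).resolve_left h4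
      rw [h5, mul_zero, sub_zero] at hi
      refine hz (funext fun k => ?_)
      fin_cases k
      · exact h5
      · exact hi
      · exact hw
    · intro j _ hj
      exact Finset.prod_eq_zero (Finset.mem_erase.2 ⟨hj.symm, Finset.mem_univ _⟩) hi
    · intro hh
      exact absurd (Finset.mem_univ _) hh
  · -- an affine point
    obtain ⟨s, hs⟩ : ∃ s : ℂ, s ^ 2 = (z 0 / z 2) ^ 2 - 4 * (z 1 / z 2) :=
      IsAlgClosed.exists_pow_nat_eq _ two_pos
    obtain ⟨x, hx⟩ : ∃ x, x = (z 0 / z 2 + s) / 2 := ⟨_, rfl⟩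
    obtain ⟨y, hy⟩ : ∃ y, y = (z 0 / z 2 - s) / 2 := ⟨_, rfl⟩
    have hxy : x + y = z 0 / z 2 := by rw [hx, hy]; ring
    have hxy' : x * y = z 1 / z 2 := by
      rw [hx, hy]
      linear_combination (-1 / 4 : ℂ) * hs
    have hLi : ∀ i, L i = z 2 * ((x - σ (a i)) * (y - σ (a i))) := by
      intro i
      have e : (x - σ (a i)) * (y - σ (a i)) = z 1 / z 2 - σ (a i) * (z 0 / z 2) + σ (a i) ^ 2 := by
        rw [← hxy, ← hxy']
        ring
      rw [e, hL]
      field_simp
    have hP : ∀ x y : ℂ, (∀ i, L i = z 2 * ((x - σ (a i)) * (y - σ (a i)))) →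
        (derivative (∏ i, (X - C (σ (a i))))).eval x = 0 := by
      intro x y hLi
      have hq : ∏ i, (y - σ (a i)) ≠ 0 := by
        intro h1
        obtain ⟨i, -, hi⟩ := Finset.prod_eq_zero_iff.1 h1
        have h2 : L i = 0 := by rw [hLi, hi, mul_zero, mul_zero]
        rw [Finset.prod_eq_zero (Finset.mem_univ i) h2, mul_zero] at h0
        exact pow_ne_zero _ hw h0.symm
      have h1 : ∑ i, (∏ j ∈ Finset.univ.erase i, L j) * (y - σ (a i)) = 0 := by
        simp only [mul_sub, Finset.sum_sub_distrib]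
        rw [d0, sub_zero, ← Finset.sum_mul, d1, zero_mul]
      have h2 : ∀ i, (∏ j ∈ Finset.univ.erase i, L j) * (y - σ (a i)) =
          z 2 ^ r * (∏ i, (y - σ (a i))) * ∏ j ∈ Finset.univ.erase i, (x - σ (a j)) := by
        intro i
        simp only [hLi]
        rw [Finset.prod_mul_distrib, Finset.prod_mul_distrib, Finset.prod_const,
          Finset.card_erase_of_mem (Finset.mem_univ _), Finset.card_univ, Fintype.card_fin,
          Nat.add_sub_cancel, ← Finset.mul_prod_erase Finset.univ (fun i => y - σ (a i))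
            (Finset.mem_univ i)]
        ring
      simp only [h2] at h1
      rw [← Finset.mul_sum] at h1
      have h3 := (mul_eq_zero.1 h1).resolve_left (mul_ne_zero (pow_ne_zero _ hw) hq)
      rw [derivative_prod_finset, eval_finset_sum]
      rw [← h3]
      refine Finset.sum_congr rfl fun i _ => ?_
      rw [derivative_X_sub_C, mul_one, eval_prod]
      simp
    have h1 := hcrit x y (hP x y hLi) (hP y x fun i => by rw [hLi i]; ring)
    have h2 : σ lam * (∏ i, (x - σ (a i))) * ∏ i, (y - σ (a i)) = 1 := by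
      simp only [hLi] at h0
      rw [Finset.prod_mul_distrib, Finset.prod_mul_distrib, Finset.prod_const, Finset.card_univ,
        Fintype.card_fin] at h0
      have h3 : z 2 ^ (r + 1) * (σ lam * (∏ i, (x - σ (a i))) * ∏ i, (y - σ (a i))) =
          z 2 ^ (r + 1) * 1 := by
        linear_combination h0
      exact mul_left_cancel₀ (pow_ne_zero _ hw) h3
    rw [h2, norm_one] at h1
    exact lt_irrefl _ h1

end

end Pool.Agent.Run7.h153.TL
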