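import Pool.Agent.Run7.h153.TL.Ring
set_option autoImplicit false

/-!
The classes of the triangles are unramified at all discrete valuations.
-/

namespace Pool.Agent.Run7.h153.TL

open scoped WithZero

open Pool.Agent.TH826.MK

open Pool.Agent.Run7.h153.NS (s2 s2_mul_left s2_mul_right s2_div_left s2_div_right s2_self s2_symm
  s2_arnold mem_of_units mem_of_left mem_of_right)

section field

variable {M : Type*} [Field M] (v : Valuation M ℤᵐ⁰) {n : ℕ}

/-- modulo the unit part the symbol of an edge is a coboundary -/
theorem edge_mem (c : Fin n → M) (hc : ∀ i, v (c i) ≤ 1) {u w lam : M} (hlam : v lam ≤ 1)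
    (L : Fin n → Mˣ) (hL : ∀ i, (L i : M) = w - c i * u + c i ^ 2)
    (hone : lam * ∏ i, (L i : M) = 1) :
    ∃ G : Fin n → KQ M 2, ∀ i j (D : Mˣ), (D : M) = c i - c j →
      s2 (L i / D) (L j / D) - (G j - G i) ∈ unitPart v 2 := by
  have hsub : ∀ i j (D : Mˣ), (D : M) = c i - c j → (L i : M) - L j = D * (c i + c j - u) := by
    intro i j D hD
    rw [hL, hL, hD]
    ring
  have hD1 : ∀ i j (D : Mˣ), (D : M) = c i - c j → v (D : M) ≤ 1 := by
    intro i j D hD
    rw [hD]
    exact (v.map_sub _ _).trans (max_le (hc i) (hc j))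
  -- a criterion
  have key : ∀ i j (D : Mˣ), v ((L i : M) - L j) < v (L j : M) →
      s2 (L i / D) (L j / D) ∈ unitPart v 2 := by
    intro i j D h
    have e : s2 (L i / D) (L j / D) = s2 (L i / L j) (L j / D) := by
      have h1 : L i / D = (L i / L j) * (L j / D) := by
        rw [div_mul_div_cancel]
      rw [h1, s2_mul_left, s2_self, add_zero]
    rw [e]
    refine mem_of_left v _ ?_
    rw [Units.val_div_eq_div_val, div_sub_one (L j).ne_zero, map_div₀,
      div_lt_one₀ (zero_lt_iff.2 ((Valuation.ne_zero_iff v).2 (L j).ne_zero))]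
    exact h
  rcases le_or_gt (v u) 1 with hu | hu
  · refine ⟨fun _ => 0, fun i j D hD => ?_⟩
    rw [sub_self, sub_zero]
    have hcu : ∀ i j, v (c i + c j - u) ≤ 1 := fun i j =>
      (v.map_sub _ _).trans (max_le ((v.map_add _ _).trans (max_le (hc i) (hc j))) hu)
    have hcc : ∀ i, v (c i ^ 2 - c i * u) ≤ 1 := by
      intro i
      refine (v.map_sub _ _).trans (max_le ?_ ?_)
      · rw [map_pow]
        exact pow_le_one₀ zero_le (hc i)
      · rw [map_mul]
        exact mul_le_one' (hc i) hu
    rcases le_or_gt (v w) 1 with hw | hw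
    · -- all lines are integral
      have hLle : ∀ i, v (L i : M) ≤ 1 := by
        intro i
        have e : (L i : M) = w + (c i ^ 2 - c i * u) := by rw [hL]; ring
        rw [e]
        exact (v.map_add _ _).trans (max_le hw (hcc i))
      have hLone : ∀ i, v (L i : M) = 1 := by
        intro i
        refine le_antisymm (hLle i) ?_
        have h1 := congrArg v hone
        rw [map_one, map_mul, map_prod, ← Finset.mul_prod_erase _ _ (Finset.mem_univ i)] at h1
        rw [← h1]
        have h2 : ∏ j ∈ Finset.univ.erase i, v (L j : M) ≤ 1 :=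
          Finset.prod_le_one' fun j _ => hLle j
        calc v lam * (v (L i : M) * ∏ j ∈ Finset.univ.erase i, v (L j : M))
            ≤ 1 * (v (L i : M) * 1) := mul_le_mul' hlam (mul_le_mul' le_rfl h2)
          _ = v (L i : M) := by rw [one_mul, mul_one]
      rcases (hD1 i j D hD).lt_or_eq with h1 | h1
      · refine key i j D ?_
        rw [hsub i j D hD, hLone j, map_mul]
        calc v (D : M) * v (c i + c j - u) ≤ v (D : M) * 1 := mul_le_mul' le_rfl (hcu i j)
          _ < 1 := by rwa [mul_one]
      · refine mem_of_units v ?_ ?_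
        · rw [Units.val_div_eq_div_val, map_div₀, h1, hLone, div_one]
        · rw [Units.val_div_eq_div_val, map_div₀, h1, hLone, div_one]
    · refine key i j D ?_
      have e : (L j : M) = w + (c j ^ 2 - c j * u) := by rw [hL]; ring
      rw [hsub i j D hD, map_mul, e, Valuation.map_add_eq_of_lt_left v ((hcc j).trans_lt hw)]
      exact (mul_le_one' (hD1 i j D hD) (hcu i j)).trans_lt hw
  · -- a pole of `u`
    have hu0 : u ≠ 0 := by
      rintro rfl
      rw [map_zero] at hu
      exact not_lt_zero hu
    set U : Mˣ := Units.mk0 u hu0 with hU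
    refine ⟨fun i => s2 U (L i), fun i j D hD => ?_⟩
    have hη : v ((1 - (c i + c j) / u) - 1) < 1 := by
      have e : (1 - (c i + c j) / u) - 1 = -((c i + c j) / u) := by ring
      rw [e, Valuation.map_neg, map_div₀, div_lt_one₀ (zero_lt_one.trans hu)]
      exact ((v.map_add _ _).trans (max_le (hc i) (hc j))).trans_lt hu
    have hη0 : 1 - (c i + c j) / u ≠ 0 := by
      intro h0
      have h1 := val_one_of_sub_one hη
      rw [h0, map_zero] at h1
      exact zero_ne_one h1
    set H : Mˣ := Units.mk0 _ hη0 with hH
    have hHm : v ((H : M) - 1) < 1 := by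
      rw [hH, Units.val_mk0]
      exact hη
    have h1 : (L j : M) - L i = (D * U * H : Mˣ) := by
      rw [Units.val_mul, Units.val_mul, hH, hU, Units.val_mk0, Units.val_mk0, ← neg_sub,
        hsub i j D hD]
      field_simp
      ring
    have h2 := s2_arnold (L j) (L i) (D * U * H) h1
    rw [s2_mul_right, s2_mul_right, s2_mul_right, s2_mul_right] at h2
    have h3 : s2 (L i / D) (L j / D) - (s2 U (L j) - s2 U (L i)) = s2 (L i) H - s2 (L j) H := by
      rw [s2_div_left, s2_div_right, s2_div_right, s2_self, s2_symm D (L j), s2_symm U (L j),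
        s2_symm U (L i), s2_symm (L i) (L j), h2]
      abel
    rw [h3]
    exact Submodule.sub_mem _ (mem_of_right v _ hHm) (mem_of_right v _ hHm)

end field

section

variable {K : Type*} [Field K] {n : ℕ} {lam : K} {a : Fin n → K} {M : Type*} [Field M]

theorem map_int {A B : Type*} [CommRing A] [CommRing B] (f : A →+* B) {x : A}
    (h : IsIntegral ℤ x) : IsIntegral ℤ (f x) := h.map f.toIntAlgHom

theorem val_le_one {v : Valuation M ℤᵐ⁰} {x : M} (h : IsIntegral ℤ x) : v x ≤ 1 := by
  obtain ⟨p, hp, hx⟩ := h
  by_contra hcon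
  rw [not_le] at hcon
  have h1 : x ^ p.natDegree = -∑ k ∈ Finset.range p.natDegree, (p.coeff k : M) * x ^ k := by
    rw [Polynomial.eval₂_eq_sum_range, Finset.sum_range_succ, hp.coeff_natDegree] at hx
    simp only [map_one, one_mul, eq_intCast] at hx
    linear_combination hx
  have hd : 0 < p.natDegree := by
    rcases Nat.eq_zero_or_pos p.natDegree with h0 | h0
    · rw [h0] at h1
      simp at h1
    · exact h0
  have h2 : v (∑ k ∈ Finset.range p.natDegree, (p.coeff k : M) * x ^ k) < v x ^ p.natDegree := by
    refine Valuation.map_sum_lt v (pow_ne_zero _ (zero_lt_one.trans hcon).ne') fun k hk => ?_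
    have hk' : k < p.natDegree := Finset.mem_range.1 hk
    have h3 : v (p.coeff k : M) ≤ 1 := by
      have h4 : ∀ m : ℤ, v (m : M) ≤ 1 := by
        intro m
        induction m using Int.induction_on with
        | zero => simp
        | succ m ih =>
          push_cast at ih ⊢
          exact (v.map_add _ _).trans (max_le ih (by rw [map_one]))
        | pred m ih =>
          push_cast at ih ⊢
          exact (v.map_sub _ _).trans (max_le ih (by rw [map_one]))
      exact h4 _
    rw [map_mul, map_pow]
    calc v (p.coeff k : M) * v x ^ k ≤ 1 * v x ^ k := mul_le_mul' h3 le_rfl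
      _ = v x ^ k := one_mul _
      _ < v x ^ p.natDegree := pow_lt_pow_right₀ hcon hk'
  have h5 := congrArg v h1
  rw [map_pow, Valuation.map_neg] at h5
  exact absurd h5 h2.ne'

/-- **The classes of the triangles are unramified.** -/
theorem tri_mem (hlam : IsIntegral ℤ lam) (hint : ∀ i, IsIntegral ℤ (a i))
    (ha : Function.Injective a) (f : DRing lam a →+* M) {i j k : Fin n} (hij : i ≠ j)
    (hjk : j ≠ k) (hki : k ≠ i) : KQ.map 2 f (tri lam a i j k) ∈ Unramified M 2 := by
  unfold Unramified
  simp only [Submodule.mem_iInf]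
  intro v _
  set c : Fin n → M := fun i => f (toD lam a (MvPolynomial.C (a i))) with hc
  have hci : ∀ i, v (c i) ≤ 1 := fun i => val_le_one
    (map_int f (map_int (toD lam a) (map_int MvPolynomial.C (hint i))))
  set L : Fin n → Mˣ := fun i => Units.map (f : DRing lam a →* M) (line lam a i) with hL
  have hLi : ∀ i, (L i : M) = f (toD lam a (MvPolynomial.X 1)) -
      c i * f (toD lam a (MvPolynomial.X 0)) + c i ^ 2 := by
    intro i
    show f (toD lam a (lf a i)) = _
    unfold lf
    rw [map_add, map_add, map_sub, map_sub, map_mul, map_mul, MvPolynomial.C_pow, map_pow, map_pow]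
  obtain ⟨G, hG⟩ := edge_mem v c hci (lam := f (toD lam a (MvPolynomial.C lam)))
    (val_le_one (map_int f (map_int (toD lam a) (map_int MvPolynomial.C hlam)))) L hLi (by
      have h := congrArg f (prod_eq_one lam a)
      rw [map_mul, map_prod, map_one] at h
      exact h)
  have hD : ∀ i j, i ≠ j → KQ.map 2 f (edge lam a i j) - (G j - G i) ∈ unitPart v 2 := by
    intro i j hij
    have h0 : a i - a j ≠ 0 := sub_ne_zero.2 fun e => hij (ha e)
    have h1 := hG i j (Units.map (f : DRing lam a →* M) (cst lam a (a i - a j))) (by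
      show f (cst lam a (a i - a j) : DRing lam a) = _
      rw [coe_cst lam a h0, MvPolynomial.C_sub, map_sub, map_sub])
    have h2 : KQ.map 2 f (edge lam a i j) = s2 (L i / Units.map (f : DRing lam a →* M)
        (cst lam a (a i - a j))) (L j / Units.map (f : DRing lam a →* M)
        (cst lam a (a i - a j))) := by
      unfold edge
      rw [← Pool.Agent.Run7.h153.NS.s2, NS.map_s2, map_div, map_div]
    rw [h2]
    exact h1
  unfold tri
  rw [map_add, map_add]
  have h := Submodule.add_mem _ (Submodule.add_mem _ (hD i j hij) (hD j k hjk)) (hD k i hki)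
  convert h using 1
  abel

end

end Pool.Agent.Run7.h153.TL
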