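import Pool.Agent.N686.DI.Main
import Pool.Agent.Run7.h153.NS.Ring
set_option autoImplicit false

/-!
The plane curve `λ ∏_i (v - a_i u + a_i²) = 1`, whose lines are the tangents of the parabola
`u² = 4 v` at the points `(2 a_i, a_i²)`, and its relation with the curve `λ P(x) P(y) = 1`,
`P = ∏_i (t - a_i)`.
-/

namespace Pool.Agent.Run7.h153.TL

open Pool.Agent.TH826.MK

open Pool.Agent.Run7.h153.NS (s2)

section Ring

variable {K : Type*} [Field K] {n : ℕ}

/-- The affine form `v - a_i u + a_i²` in the variables `u = X 0` and `v = X 1`. -/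
noncomputable def lf (a : Fin n → K) (i : Fin n) : MvPolynomial (Fin 2) K :=
  MvPolynomial.X 1 - MvPolynomial.C (a i) * MvPolynomial.X 0 + MvPolynomial.C (a i ^ 2)

/-- The polynomial `λ ∏_i (v - a_i u + a_i²) - 1`. -/
noncomputable def eqn (lam : K) (a : Fin n → K) : MvPolynomial (Fin 2) K :=
  MvPolynomial.C lam * ∏ i, lf a i - 1

/-- The coordinate ring of the plane curve `λ ∏_i (v - a_i u + a_i²) = 1`. -/
def DRing (lam : K) (a : Fin n → K) : Type _ := MvPolynomial (Fin 2) K ⧸ Ideal.span {eqn lam a}

variable (lam : K) (a : Fin n → K)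

noncomputable instance : CommRing (DRing lam a) :=
  Ideal.Quotient.commRing (Ideal.span {eqn lam a})

/-- The polynomials in `u` and `v` as functions on the curve. -/
noncomputable def toD : MvPolynomial (Fin 2) K →+* DRing lam a :=
  Ideal.Quotient.mk (Ideal.span {eqn lam a})

theorem toD_eqn : toD lam a (eqn lam a) = 0 :=
  Ideal.Quotient.eq_zero_iff_mem.2 (Ideal.subset_span rfl)

theorem prod_eq_one : toD lam a (MvPolynomial.C lam) * ∏ i, toD lam a (lf a i) = 1 := by
  have h := toD_eqn lam a
  unfold eqn at h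
  rw [map_sub, map_mul, map_one, map_prod, sub_eq_zero] at h
  exact h

theorem isUnit_lf (i : Fin n) : IsUnit (toD lam a (lf a i)) := by
  refine isUnit_of_dvd_one ?_
  rw [← prod_eq_one lam a]
  exact Dvd.dvd.mul_left (Finset.dvd_prod_of_mem _ (Finset.mem_univ i)) _

/-- The function `L_i = v - a_i u + a_i²` on the curve, which is a unit of the coordinate ring. -/
noncomputable def line (i : Fin n) : (DRing lam a)ˣ := (isUnit_lf lam a i).unit

theorem coe_line (i : Fin n) : (line lam a i : DRing lam a) = toD lam a (lf a i) := rfl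

open scoped Classical in
/-- The constant function `c`, for `c ≠ 0` (and `1` for `c = 0`). -/
noncomputable def cst (c : K) : (DRing lam a)ˣ :=
  if h : c = 0 then 1 else
    Units.map ((toD lam a).comp MvPolynomial.C : K →* DRing lam a) (Units.mk0 c h)

theorem coe_cst {c : K} (h : c ≠ 0) :
    (cst lam a c : DRing lam a) = toD lam a (MvPolynomial.C c) := by
  unfold cst
  rw [dif_neg h]
  rfl

/-- The symbol `{L_i / (a_i - a_j), L_j / (a_i - a_j)}`. -/
noncomputable def edge (i j : Fin n) : KQ (DRing lam a) 2 :=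
  symb ![line lam a i / cst lam a (a i - a j), line lam a j / cst lam a (a i - a j)]

/-- The class of the triangle formed by the lines `L_i = 0`, `L_j = 0` and `L_k = 0`. -/
noncomputable def tri (i j k : Fin n) : KQ (DRing lam a) 2 :=
  edge lam a i j + edge lam a j k + edge lam a k i

end Ring

section Map

variable {K E : Type*} [Field K] [Field E] (σ : K →+* E) {n : ℕ}

theorem map_lf (a : Fin n → K) (i : Fin n) :
    MvPolynomial.map σ (lf a i) = lf (fun i => σ (a i)) i := by
  unfold lf
  simp

theorem map_eqn (lam : K) (a : Fin n → K) :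
    MvPolynomial.map σ (eqn lam a) = eqn (σ lam) fun i => σ (a i) := by
  unfold eqn
  rw [map_sub, map_mul, map_prod, map_one, MvPolynomial.map_C]
  congr 2
  exact Finset.prod_congr rfl fun i _ => map_lf σ a i

end Map

section Cover

variable {K : Type*} [Field K] {r : ℕ}

/-- The substitution `u = x + y`, `v = x y`. -/
noncomputable def subst : MvPolynomial (Fin 2) K →+* MvPolynomial (Fin 2) K :=
  MvPolynomial.eval₂Hom MvPolynomial.C
    ![MvPolynomial.X 0 + MvPolynomial.X 1, MvPolynomial.X 0 * MvPolynomial.X 1]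

theorem subst_C (c : K) : subst (MvPolynomial.C c) = MvPolynomial.C c := by
  unfold subst
  simp

theorem subst_X0 : subst (MvPolynomial.X 0 : MvPolynomial (Fin 2) K) =
    MvPolynomial.X 0 + MvPolynomial.X 1 := by
  unfold subst
  simp

theorem subst_X1 : subst (MvPolynomial.X 1 : MvPolynomial (Fin 2) K) =
    MvPolynomial.X 0 * MvPolynomial.X 1 := by
  unfold subst
  simp

theorem subst_lf {n : ℕ} (a : Fin n → K) (i : Fin n) : subst (lf a i) =
    (MvPolynomial.X 0 - MvPolynomial.C (a i)) * (MvPolynomial.X 1 - MvPolynomial.C (a i)) := by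
  unfold lf
  rw [map_add, map_sub, map_mul, subst_C, subst_C, subst_X0, subst_X1, map_pow]
  ring

/-- the equation of the cover -/
noncomputable abbrev ceqn (lam : K) (a : Fin (r + 1) → K) : MvPolynomial (Fin 2) K :=
  Pool.Agent.TH826.MH.eqn (r := fun _ : Fin 2 => r) lam fun _ => a

theorem subst_eqn (lam : K) (a : Fin (r + 1) → K) : subst (eqn lam a) = ceqn lam a := by
  unfold eqn ceqn Pool.Agent.TH826.MH.eqn
  rw [map_sub, map_mul, map_prod, map_one, subst_C, Fin.prod_univ_two, ← Finset.prod_mul_distrib]
  congr 2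
  exact Finset.prod_congr rfl fun i _ => subst_lf a i

/-- the coordinate ring of the cover -/
abbrev CR (lam : K) (a : Fin (r + 1) → K) : Type _ :=
  Pool.Agent.TH826.MH.CRing (r := fun _ : Fin 2 => r) lam fun _ => a

/-- The homomorphism of coordinate rings for the map `(x, y) ↦ (x + y, x y)`. -/
noncomputable def cov (lam : K) (a : Fin (r + 1) → K) : DRing lam a →+* CR lam a :=
  Ideal.Quotient.lift (Ideal.span {eqn lam a})
    ((Pool.Agent.TH826.MH.fpol (r := fun _ : Fin 2 => r) lam fun _ => a).comp subst) (by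
      intro x hx
      have h : Ideal.span {eqn lam a} ≤ RingHom.ker
          ((Pool.Agent.TH826.MH.fpol (r := fun _ : Fin 2 => r) lam fun _ => a).comp subst) := by
        rw [Ideal.span_le]
        rintro _ rfl
        show Pool.Agent.TH826.MH.fpol (r := fun _ : Fin 2 => r) lam (fun _ => a) (subst _) = 0
        rw [subst_eqn]
        exact Pool.Agent.TH826.MH.fpol_eqn _ _
      exact h hx)

theorem cov_toD (lam : K) (a : Fin (r + 1) → K) (g : MvPolynomial (Fin 2) K) :
    cov lam a (toD lam a g) =
      Pool.Agent.TH826.MH.fpol (r := fun _ : Fin 2 => r) lam (fun _ => a) (subst g) :=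
  Ideal.Quotient.lift_mk _ _ _

end Cover

section Irr

/-- the substitution is injective -/
theorem subst_eq_zero {g : MvPolynomial (Fin 2) ℂ} (h : subst g = 0) : g = 0 := by
  refine MvPolynomial.funext fun z => ?_
  rw [map_zero]
  -- the roots
  obtain ⟨s, hs⟩ : ∃ s : ℂ, s ^ 2 = z 0 ^ 2 - 4 * z 1 := IsAlgClosed.exists_pow_nat_eq _ two_pos
  have h1 := congrArg (MvPolynomial.eval ![(z 0 + s) / 2, (z 0 - s) / 2]) h
  rw [map_zero] at h1
  have e : (MvPolynomial.eval ![(z 0 + s) / 2, (z 0 - s) / 2]).comp subst =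
      MvPolynomial.eval z := by
    refine MvPolynomial.ringHom_ext (fun c => ?_) fun i => ?_
    · simp [subst_C]
    · fin_cases i
      · simp only [RingHom.comp_apply]
        show MvPolynomial.eval _ (subst (MvPolynomial.X 0)) = MvPolynomial.eval z (MvPolynomial.X 0)
        rw [subst_X0]
        simp only [map_add, MvPolynomial.eval_X, Matrix.cons_val_zero, Matrix.cons_val_one]
        ring
      · simp only [RingHom.comp_apply]
        show MvPolynomial.eval _ (subst (MvPolynomial.X 1)) = MvPolynomial.eval z (MvPolynomial.X 1)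
        rw [subst_X1]
        simp only [map_mul, MvPolynomial.eval_X, Matrix.cons_val_zero, Matrix.cons_val_one]
        linear_combination (-1 / 4 : ℂ) * hs
  rw [← e]
  exact h1

theorem isUnit_of_subst {g : MvPolynomial (Fin 2) ℂ} (h : IsUnit (subst g)) : IsUnit g := by
  rw [MvPolynomial.isUnit_iff_eq_C_of_isReduced] at h ⊢
  obtain ⟨c, hc, he⟩ := h
  refine ⟨c, hc, ?_⟩
  have h1 : subst (g - MvPolynomial.C c) = 0 := by
    rw [map_sub, he, subst_C, sub_self]
  exact sub_eq_zero.1 (subst_eq_zero h1)

theorem irreducible_of_subst {g : MvPolynomial (Fin 2) ℂ} (h : Irreducible (subst g)) :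
    Irreducible g := by
  refine ⟨fun hu => h.not_isUnit (hu.map _), fun p q hpq => ?_⟩
  rw [hpq, map_mul] at h
  rcases h.isUnit_or_isUnit rfl with h1 | h1
  · exact Or.inl (isUnit_of_subst h1)
  · exact Or.inr (isUnit_of_subst h1)

variable {K : Type*} [Field K] {r : ℕ}

theorem isDomain_DRing (σ : K →+* ℂ) {lam : K} {a : Fin (r + 1) → K} (hl : lam ≠ 0)
    (ha : Function.Injective a) : IsDomain (DRing lam a) := by
  have h : Irreducible (eqn lam a) := by
    refine NS.irreducible_of_map σ (irreducible_of_subst ?_)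
    rw [map_eqn, subst_eqn]
    exact Pool.Agent.TH826.MH.irreducible_eqn (m := 0) _ _ ((map_ne_zero σ).2 hl)
      fun _ => σ.injective.comp ha
  have hp : (Ideal.span {eqn lam a}).IsPrime :=
    (Ideal.span_singleton_prime h.ne_zero).2 h.prime
  exact Ideal.Quotient.isDomain _

end Irr

end Pool.Agent.Run7.h153.TL
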